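import Pool.Agent.N688.FB.RecA

/-!
# Clusters of primes between record gaps: almost all vectors of a Bohr set, at every scale

Let `f(X) = log X (log₂ X)² log₄ X / (log₃ X)²`, the size of the largest gaps between consecutive primes that are
known to occur up to `X`. For all `ε > 0` and `s, k` there are `M, K, d` and `c, ρ, δ > 0` such that for all large
`X`, at EVERY scale `H₀ ≤ H`, `M H ≤ c f(X)`, there is a Bohr set `B ⊆ [-H, H]` of rank at most `d`, radius at least
`ρ` and with at least `δ H` elements, such that all but `ε |B|^k` of the vectors `y ∈ B^k` have the property: for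
EVERY nonsingular integer matrix `T` with entries at most `s` there are at least `X^(6/7)` primes `n ≡ a (mod q)` of
`(X, 4X]` such that `n + M (T y)_1, …, n + M (T y)_k` are primes too and the interval `[n - c f(X), n + c f(X)]`
contains at most `K` primes (so that one of the gaps next to or inside the cluster is longer than `c f(X) / (K+1)`).

Method. (1) The coloured Maynard-Tao theorem for arbitrary admissible tuples in the record windows
(`Pool.Agent.TH101.RG.tuple_multiples`, starting files; record sieve of helper256 and helper410, helper312's team,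
helper362): from `m` families of `Kf(m)` multiples of `M` below `c f(X)` one can choose shifts from a positive
proportion of the families with `n + t_j` all prime (`rec_hit`, new: at least `X^(6/7)` such `n` for ONE of the
choices). (2) The set of the good finite sets has an almost complete container (`Pool.Agent.N646.AC.wclique`,
helper646): a set `A` of positive density almost all of whose `(k+1)`-tuples are good. (3) Bohr sets of returns of
dense sets: `Pool.Agent.N646.AC.returnsZ` (helper646). (4) New: translation of clusters inside the record window, so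
that the differences `t_i - t_0` of a good tuple are the shifts of a cluster which begins at a prime.
-/

set_option autoImplicit false

open Filter Finset

namespace Pool.Agent.Results.MP_711652_nt.ClustersInBohrSets

/-- The record scale `f(x) = log x (log₂ x)² log₄ x / (log₃ x)²` (iterated natural logarithms). -/
noncomputable def f (x : ℝ) : ℝ :=
  Real.log x * (Real.log (Real.log x)) ^ 2 * Real.log (Real.log (Real.log (Real.log x))) /
    (Real.log (Real.log (Real.log x))) ^ 2

open Classical in
/-- The Bohr set of the integers `|b| ≤ H` with `|exp (2 π i θ b) - 1| ≤ r` for all `θ ∈ Θ`. -/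
noncomputable def bohrSet (Θ : Finset ℝ) (r : ℝ) (H : ℕ) : Finset ℤ :=
  (Icc (-(H : ℤ)) H).filter (fun b => ∀ θ ∈ Θ,
    ‖Complex.exp (2 * Real.pi * Complex.I * θ * b) - 1‖ ≤ r)

/-- The number of the `n ≡ a (mod q)` in `(X, 4X]` such that `n` and all the `n + M h_i` are prime and at most `K`
primes are at distance at most `G` from `n`. -/
noncomputable def clusters {k : ℕ} (G X : ℝ) (M K q a : ℕ) (h : Fin k → ℤ) : ℕ :=
  {n : ℕ | X < n ∧ (n : ℝ) ≤ 4 * X ∧ n ≡ a [MOD q] ∧ n.Prime ∧ (∀ i, ((n : ℤ) + M * h i).toNat.Prime) ∧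
    {p : ℕ | p.Prime ∧ |(p : ℝ) - n| ≤ G}.ncard ≤ K}.ncard

open Classical in
/-- For all `k, s`, squarefree `q` and `ε > 0`, at every scale `H` up to the record scale there is a Bohr set of
bounded rank, radius bounded from below and positive density such that, up to `ε |B|^k`, all the vectors `y` in
`B^k` and all the nonsingular matrices `T` with entries at most `s` give a pattern `0, M (T y)_1, …, M (T y)_k` of
at least `X^(6/7)` clusters of primes in record windows with at most `K` primes. -/
theorem result (k s q : ℕ) (hq : Squarefree q) (ε : ℝ) (hε : 0 < ε) :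
    ∃ (M K d H₀ : ℕ) (c ρ δ : ℝ), 1 ≤ M ∧ 0 < c ∧ 0 < ρ ∧ 0 < δ ∧
    ∀ a : ℕ, a.Coprime q → ∀ᶠ X : ℝ in atTop, ∀ H : ℕ, H₀ ≤ H → M * H ≤ c * f X →
      ∃ (Θ : Finset ℝ) (r : ℝ), Θ.card ≤ d ∧ ρ ≤ r ∧ r ≤ 1 ∧ δ * H ≤ (bohrSet Θ r H).card ∧
      (((Fintype.piFinset (fun _ : Fin k => bohrSet Θ r H)).filter (fun y =>
        ¬ ∀ T : Matrix (Fin k) (Fin k) ℤ, (∀ i j, |T i j| ≤ s) → T.det ≠ 0 →
          Function.Injective (T.mulVec y) ∧ (∀ i, T.mulVec y i ≠ 0) ∧
          X ^ (6 / 7 : ℝ) ≤ clusters (c * f X) X M K q a (T.mulVec y))).card : ℝ) ≤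
        ε * ((bohrSet Θ r H).card : ℝ) ^ k := by
  obtain ⟨M, K, d, n₀, c, ρ, δ, hM, hc, hρ, hδ, h⟩ := Pool.Agent.N688.FB.rec_vectors k s q hq ε hε
  refine ⟨M, K, d, n₀, c, ρ, δ, hM, hc, hρ, hδ, fun a ha => ?_⟩
  filter_upwards [h a ha] with X hX H hH hMH
  obtain ⟨Θ, r, h1, h2, h3, h4, h5⟩ := hX H hH hMH
  refine ⟨Θ, r, h1, h2, h3, h4, le_trans ?_ h5⟩
  rw [Nat.cast_le]
  apply card_le_card
  intro y hy
  rw [mem_filter] at hy ⊢
  refine ⟨hy.1, fun hall => hy.2 fun T hT hdet => ?_⟩
  obtain ⟨g1, g2⟩ := hall T (Pool.Agent.N646.AC.mem_Mats.2 hT) hdet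
  refine ⟨?_, ?_, g2.trans ?_⟩
  · intro i j hij
    have h6 : Pool.Agent.N646.AC.nv (T.mulVec y) i.succ = Pool.Agent.N646.AC.nv (T.mulVec y) j.succ := by
      unfold Pool.Agent.N646.AC.nv
      rw [Fin.cons_succ, Fin.cons_succ]
      exact hij
    exact Fin.succ_injective _ (g1 h6)
  · intro i hi
    have h6 : Pool.Agent.N646.AC.nv (T.mulVec y) i.succ = Pool.Agent.N646.AC.nv (T.mulVec y) 0 := by
      unfold Pool.Agent.N646.AC.nv
      rw [Fin.cons_succ, Fin.cons_zero]
      exact hi
    exact Fin.succ_ne_zero _ (g1 h6)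
  · rw [Nat.cast_le]
    unfold Pool.Agent.N688.FB.clu clusters
    apply Set.ncard_le_ncard
    · rintro n ⟨h6, h7, h8, h9, h10⟩
      refine ⟨h6, h7, h8, ?_, fun i => h9 _ ⟨i.succ, by
        unfold Pool.Agent.N646.AC.nv
        rw [Fin.cons_succ]⟩, h10⟩
      have h11 := h9 0 ⟨0, by
        unfold Pool.Agent.N646.AC.nv
        rw [Fin.cons_zero]⟩
      rwa [mul_zero, add_zero, Int.toNat_natCast] at h11
    · apply (Set.finite_Iic ⌊4 * X⌋₊).subset
      intro n hn
      exact Set.mem_Iic.2 (Nat.le_floor hn.2.1)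

end Pool.Agent.Results.MP_711652_nt.ClustersInBohrSets
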