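import Pool.Agent.N193.PS.Ens
import Pool.Agent.TH646.TT.Grid

/-!
# Primes at a distance of at most a power of the logarithm from many points of the translates of arbitrary sets by ALL
the integers near almost all values of functions of a non-integral order

From Mathlib: `iteratedDeriv m f t`: the derivative of order `m` of `f` at `t`; `ContDiffAt ℝ ⊤ f t`: `f` is infinitely
differentiable at `t`; `⌊y⌋`: the integer part of `y`.

The criterion with additive energies is from the starting files (`Pool.Agent.TH646.TT`); the energy estimate for the values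
is from the exponential sums of `Pool.Agent.N193.PS`.
-/

set_option autoImplicit false

namespace Pool.Agent.Results.MP_711652_nt.NonIntegralOrderTranslates

open Finset Filter Topology

/-- `f` is smoothly varying of index `c`: it is infinitely differentiable and positive for large arguments, and
`t ^ m f⁽ᵐ⁾(t) / f(t) → c (c - 1) ... (c - m + 1)` as `t → ∞`, for every `m`. Examples of index `c`: `t ^ c`, all products
`t ^ c * log t ^ b`, and all finite sums `a t ^ u log t ^ v + ...` (real exponents) with the leading term `a t ^ c log t ^ b`,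
`a > 0`. -/
def SmoothlyVarying (c : ℝ) (f : ℝ → ℝ) : Prop :=
  (∃ t₀ : ℝ, ∀ t > t₀, ContDiffAt ℝ ((⊤ : ℕ∞) : WithTop ℕ∞) f t ∧ 0 < f t) ∧
  ∀ m : ℕ, Tendsto (fun t => t ^ m * iteratedDeriv m f t / f t) atTop (𝓝 (∏ i ∈ range m, (c - i)))

/-- The number of the primes in `(n, n + y]`. -/
def primesIn (n y : ℕ) : ℕ := ((Ioc n (n + y)).filter Nat.Prime).card

open Classical in
/-- The translate `A + b` has good points: for all integers `y` with `(log N) ^ K ≤ y ≤ N` the average of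
`primesIn (a + b) y` over the `a ∈ A` differs from `y / log N` by at most `ε y / log N`, and at least
`(1 / 4 - ε) |A|` elements `a` of `A` have at least `ε y / log N` primes in `(a + b, a + b + y]`. -/
noncomputable def Good (ε : ℝ) (K N : ℕ) (A : Finset ℕ) (b : ℕ) : Prop :=
  ∀ y : ℕ, Real.log N ^ K ≤ y → y ≤ N →
    |(∑ a ∈ A, (primesIn (a + b) y : ℝ)) * Real.log N - A.card * y| ≤ ε * (A.card * y) ∧
    (1 / 4 - ε) * A.card ≤ ((A.filter fun a => ε * y ≤ (primesIn (a + b) y : ℝ) * Real.log N).card : ℝ)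

open Classical in
/-- Let `f` be smoothly varying of an index `c > 0` which is not an integer, and let the integer `κ ≠ 0`, `B`, `C`, `U`, `W` and
`0 < ε ≤ 1 / 4` be fixed. Then there is a `K` such that for all `N ≥ K`, all `x` with `N / log ^ C N ≤ f x ≤ B N`, all integers
`c₀` with `|c₀| ≤ B N` and all sets `A` of at least `N / log ^ C N` integers in `[1, N]` the following holds.

For all `m ≤ x` with at most `x / log ^ U N` exceptions, ALL the integers `b` in `[1, N]` with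
`|b - (c₀ + κ ⌊f m⌋)| ≤ log ^ W N` are such that for all integers `y` with `(log N) ^ K ≤ y ≤ N`: the average over `a ∈ A` of
the number of the primes in `(a + b, a + b + y]` differs from `y / log N` by at most `ε y / log N`, and at least
`(1 / 4 - ε) |A|` elements `a` of `A` have at least `ε y / log N` primes in `(a + b, a + b + y]`.

(The number of the values `⌊f m⌋`, `m ≤ x`, is about `N ^ (1 / c)`.) -/
theorem result (c : ℝ) (f : ℝ → ℝ) (hc : 0 < c) (hn : ∀ m : ℕ, c ≠ m) (hf : SmoothlyVarying c f) (κ : ℤ) (hκ : κ ≠ 0)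
    (B C U W : ℕ) (ε : ℝ) (hε : 0 < ε) (hε1 : ε ≤ 1 / 4) : ∃ K : ℕ, ∀ N : ℕ, K ≤ N →
    ∀ x : ℕ, N / Real.log N ^ C ≤ f x → f x ≤ B * N → ∀ c₀ : ℤ, |c₀| ≤ B * N →
    ∀ A : Finset ℕ, A ⊆ Icc 1 N → N / Real.log N ^ C ≤ (A.card : ℝ) →
      (((Icc 1 x).filter fun m : ℕ => ∃ b ∈ Icc 1 N, |(((b : ℤ) - (c₀ + κ * ⌊f m⌋) : ℤ) : ℝ)| ≤ Real.log N ^ W ∧
        ¬ Good ε K N A b).card : ℝ) ≤ x / Real.log N ^ U := by
  obtain ⟨p, B', hp, hBB, N₁, hfam⟩ := Pool.Agent.N193.PS.sv_family c f hc hn hf κ hκ (B + 1) C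
  obtain ⟨K, hK⟩ := Pool.Agent.TH646.TT.cnt_full p B' (C + 1) (U + W + 2) ε hε hε1
  obtain ⟨N₂, hcnt⟩ := eventually_atTop.1 hK
  obtain ⟨N₃, hL⟩ := Pool.Agent.H373R2.T7.ev_L' 3
  obtain ⟨N₄, hW⟩ := Pool.Agent.H373R2.T7.ev_log' W 1
  refine ⟨K + N₁ + N₂ + N₃ + N₄ + 4, fun N hN x hx1 hx2 c₀ hc₀ A hA hAN => ?_⟩
  have hL3 := hL N (by omega)
  have hWN := hW N (by omega)
  have hN4 : (4 : ℝ) ≤ N := by exact_mod_cast (by omega : 4 ≤ N)
  have hN0 : (0 : ℝ) < N := by linarith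
  have hL0 : 0 < Real.log N := by linarith
  have hRN : Real.log N ^ W ≤ N := by
    rw [one_mul] at hWN
    refine hWN.trans ?_
    rw [Real.sqrt_le_left hN0.le]
    nlinarith
  rw [div_le_iff₀ (by positivity)] at hx1 hAN
  have hfx : (N : ℝ) ≤ Real.log N ^ C * f x := by linarith
  have hf2 : f x ≤ (B + 1 : ℕ) * N := by
    push_cast
    nlinarith
  have hLC : Real.log N ^ C ≤ Real.log N ^ (C + 1) := pow_le_pow_right₀ (by linarith) (by omega)
  obtain ⟨R, hR⟩ : ∃ R, R = ⌊Real.log N ^ W⌋ := ⟨_, rfl⟩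
  have hR0 : 0 ≤ R := by rw [hR]; exact Int.floor_nonneg.2 (by positivity)
  have hR1 : (R : ℝ) ≤ Real.log N ^ W := by rw [hR]; exact Int.floor_le _
  -- one shift
  have hone : ∀ r ∈ Icc (-R) R, (((Icc 1 x).filter fun m : ℕ => 0 < c₀ + r + κ * ⌊f m⌋ ∧ c₀ + r + κ * ⌊f m⌋ ≤ N ∧
      ¬ Good ε (K + N₁ + N₂ + N₃ + N₄ + 4) N A (c₀ + r + κ * ⌊f m⌋).toNat).card : ℝ) ≤ x / Real.log N ^ (U + W + 2) := by
    intro r hr
    rw [mem_Icc] at hr
    have hcr : |c₀ + r| ≤ ((B + 1 : ℕ) : ℤ) * N := by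
      have h1 : |r| ≤ R := abs_le.2 hr
      have h2 : (R : ℤ) ≤ N := by
        have : (R : ℝ) ≤ N := hR1.trans hRN
        exact_mod_cast this
      calc |c₀ + r| ≤ |c₀| + |r| := abs_add_le _ _
        _ ≤ B * N + N := add_le_add hc₀ (h1.trans h2)
        _ = _ := by push_cast; ring
    obtain ⟨-, g1, g2⟩ := hfam N (by omega) x hf2 hfx (c₀ + r) hcr
    refine hcnt N (by omega) x (fun m => c₀ + r + κ * ⌊f m⌋) g1 g2 A hA ?_ _ (filter_subset _ _) ?_
    · refine hAN.trans ?_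
      exact mul_le_mul_of_nonneg_left hLC (Nat.cast_nonneg _)
    · intro m hm
      rw [mem_filter] at hm
      obtain ⟨_, h1, h2, h3⟩ := hm
      refine ⟨h1, h2, fun h4 => h3 ?_⟩
      intro y hy1 hy2
      exact h4 y ((pow_le_pow_right₀ (by linarith) (by omega)).trans hy1) hy2
  -- all shifts
  have hsub : ((Icc 1 x).filter fun m : ℕ => ∃ b ∈ Icc 1 N, |(((b : ℤ) - (c₀ + κ * ⌊f m⌋) : ℤ) : ℝ)| ≤ Real.log N ^ W ∧
        ¬ Good ε (K + N₁ + N₂ + N₃ + N₄ + 4) N A b) ⊆ (Icc (-R) R).biUnion fun r => (Icc 1 x).filter fun m : ℕ =>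
        0 < c₀ + r + κ * ⌊f m⌋ ∧ c₀ + r + κ * ⌊f m⌋ ≤ N ∧
      ¬ Good ε (K + N₁ + N₂ + N₃ + N₄ + 4) N A (c₀ + r + κ * ⌊f m⌋).toNat := by
    intro m hm
    rw [mem_filter] at hm
    obtain ⟨hm1, b, hb, hb2, hb3⟩ := hm
    rw [mem_Icc] at hb
    rw [mem_biUnion]
    refine ⟨(b : ℤ) - (c₀ + κ * ⌊f m⌋), ?_, ?_⟩
    · have h1 : |(b : ℤ) - (c₀ + κ * ⌊f m⌋)| ≤ R := by
        rw [hR, Int.le_floor]
        push_cast at hb2 ⊢
        exact hb2
      rw [mem_Icc]
      exact abs_le.1 h1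
    · have h1 : c₀ + ((b : ℤ) - (c₀ + κ * ⌊f m⌋)) + κ * ⌊f m⌋ = b := by ring
      rw [mem_filter, h1]
      exact ⟨hm1, by exact_mod_cast hb.1, by exact_mod_cast hb.2, by simpa using hb3⟩
  have hcard : ((Icc (-R) R).card : ℝ) ≤ 3 * Real.log N ^ W := by
    rw [Int.card_Icc]
    have h1 : ((R + 1 - -R).toNat : ℤ) = 2 * R + 1 := by rw [Int.toNat_of_nonneg (by omega)]; ring
    have h2 : (((R + 1 - -R).toNat : ℕ) : ℝ) = 2 * (R : ℝ) + 1 := by exact_mod_cast h1
    rw [h2]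
    have h3 : (1 : ℝ) ≤ Real.log N ^ W := one_le_pow₀ (by linarith)
    linarith
  calc _ ≤ (((Icc (-R) R).biUnion fun r => (Icc 1 x).filter fun m : ℕ =>
        0 < c₀ + r + κ * ⌊f m⌋ ∧ c₀ + r + κ * ⌊f m⌋ ≤ N ∧
      ¬ Good ε (K + N₁ + N₂ + N₃ + N₄ + 4) N A (c₀ + r + κ * ⌊f m⌋).toNat).card : ℝ) := by
        exact_mod_cast card_le_card hsub
    _ ≤ ∑ r ∈ Icc (-R) R, (((Icc 1 x).filter fun m : ℕ => 0 < c₀ + r + κ * ⌊f m⌋ ∧ c₀ + r + κ * ⌊f m⌋ ≤ N ∧
      ¬ Good ε (K + N₁ + N₂ + N₃ + N₄ + 4) N A (c₀ + r + κ * ⌊f m⌋).toNat).card : ℝ) := by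
        exact_mod_cast card_biUnion_le
    _ ≤ ∑ _r ∈ Icc (-R) R, x / Real.log N ^ (U + W + 2) := sum_le_sum hone
    _ = ((Icc (-R) R).card : ℝ) * (x / Real.log N ^ (U + W + 2)) := by rw [sum_const, nsmul_eq_mul]
    _ ≤ (3 * Real.log N ^ W) * (x / Real.log N ^ (U + W + 2)) := mul_le_mul_of_nonneg_right hcard (by positivity)
    _ ≤ x / Real.log N ^ U := by
        have h1 : (3 * Real.log N ^ W) * (x / Real.log N ^ (U + W + 2)) = (3 / Real.log N ^ 2) * (x / Real.log N ^ U) := by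
          rw [pow_add, pow_add]
          field_simp
        rw [h1]
        have h2 : 3 / Real.log N ^ 2 ≤ 1 := by
          rw [div_le_one (by positivity)]
          nlinarith
        have h3 : (0 : ℝ) ≤ x / Real.log N ^ U := by positivity
        nlinarith

end Pool.Agent.Results.MP_711652_nt.NonIntegralOrderTranslates
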