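import Pool.Agent.N893.PG.Bun

set_option autoImplicit false

/-!
# Translates of polynomial values without primes, beyond the record for prime gaps

The record theorem for prime gaps (MP_3bc45c_nt.RecordGaps and its form for all intervals `(z, z + X]`) is about
the numbers `n + a`, `|n| ≤ L`, `L = c log X (log₂ X)² log₄ X / (log₃ X)²`. Here `n` is replaced by `G(n)`. If
the integer polynomial `G` takes some value `C` at `k` integers then `L` can be larger by the factor
`(log₂ X)^(k - 1)`, and by a further factor `log₂ X log₄ X / (log₃ X)²` if `G` has a symmetry `G(m - t) = G(t)`.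

Proof. Put `a ≡ -C` modulo the primes `p ≤ (log y)^B` and `v < p ≤ y` (`y = (log X)/10`,
`log v = log y log₃ y / (2 (B + 2) log₂ y)`). Since `t - r ∣ G(t) - C` for the `k` integers `r` with
`G(r) = C`, no `t - r` has such a prime factor if `G(t) + a` has none, so that (up to few smooth numbers) no
`t - r` has a prime factor `≤ y`, and Selberg's sieve of dimension `k` saves `(log y)^k`. For the other primes a
greedy choice of a zero of `G + a` saves `log y log₃ y / (log₂ y)²`, twice this exponent if there is a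
symmetry. The `O(log X)` values left are made composite by the sieve of the starting result
MP_3bc45c_nt.RecordGaps (`H361R2.PA.assembleM`).
-/

namespace Pool.Agent.Results.MP_711652_nt.PolynomialTranslates

open Polynomial

/-- `log X (log₂ X)^e₁ (log₄ X)^e₂ / (log₃ X)^e₃` with the iterated logarithms `log₂, log₃, log₄`. -/
noncomputable def F (e₁ e₂ e₃ : ℕ) (X : ℝ) : ℝ :=
  Real.log X * (Real.log (Real.log X)) ^ e₁ * (Real.log (Real.log (Real.log (Real.log X)))) ^ e₂ /
    (Real.log (Real.log (Real.log X))) ^ e₃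

/-- There is a `c > 0` such that for all large `X` every interval `(z, z + X]` contains an integer `a ≡ a₀`
modulo `W` such that `|G(t) + a|` is not a prime for any integer `t` with `|t| ≤ c F(X)`. -/
def Late (G : ℤ[X]) (W : ℕ) (a₀ : ℤ) (F : ℝ → ℝ) : Prop :=
  ∃ c : ℝ, 0 < c ∧ ∃ X₀ : ℝ, ∀ X : ℝ, X₀ ≤ X → ∀ z : ℤ,
    ∃ a : ℤ, (z : ℝ) < a ∧ (a : ℝ) ≤ z + X ∧ a ≡ a₀ [ZMOD W] ∧
      ∀ t : ℤ, |(t : ℝ)| ≤ c * F X → ¬ (G.eval t + a).natAbs.Prime

/-- Let `G` be a polynomial with integer coefficients which takes the value `C` at all the integers of a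
nonempty finite set `R`, and let `W ≥ 1` and `a₀` be integers.

1. `Late G W a₀` holds with `F(X) = log X (log₂ X)^(#R + 1) log₄ X / (log₃ X)²`.
2. If `G(m - t) = G(t)` for some integer `m` and all `t`, it holds with
   `F(X) = log X (log₂ X)^(#R + 2) (log₄ X)² / (log₃ X)⁴`.
3. For every `A` there is a `G` such that for all large `X` every interval `(z, z + X]` contains an integer
   `a` such that the polynomial `G + a` is monic, irreducible and without fixed prime divisor, but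
   `|G(t) + a|` is not a prime for any integer `t` with `|t| ≤ log X (log₂ X)^A`. -/
theorem result :
    (∀ (G : ℤ[X]) (R : Finset ℤ) (C : ℤ), R.Nonempty → (∀ r ∈ R, G.eval r = C) →
      ∀ (W : ℕ) (a₀ : ℤ), 1 ≤ W →
        Late G W a₀ (F (R.card + 1) 1 2) ∧
        ((∃ m : ℤ, ∀ t : ℤ, G.eval (m - t) = G.eval t) → Late G W a₀ (F (R.card + 2) 2 4))) ∧
    ∀ A : ℕ, ∃ G : ℤ[X], ∃ X₀ : ℝ, ∀ X : ℝ, X₀ ≤ X → ∀ z : ℤ,
      ∃ a : ℤ, (z : ℝ) < a ∧ (a : ℝ) ≤ z + X ∧ (G + C a).Monic ∧ Irreducible (G + C a) ∧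
        (∀ p : ℕ, p.Prime → ∃ t : ℤ, ¬ (p : ℤ) ∣ (G + C a).eval t) ∧
        ∀ t : ℤ, |(t : ℝ)| ≤ Real.log X * (Real.log (Real.log X)) ^ A →
          ¬ ((G + C a).eval t).natAbs.Prime := by
  refine ⟨fun G R C₀ hR hRC W a₀ hW => ⟨?_, fun hm => ?_⟩, fun A => ?_⟩
  · obtain ⟨c, hc, X₀, h⟩ := Pool.Agent.N893.PG.main (fun t => G.eval t)
      (fun s t => Polynomial.sub_dvd_eval_sub t s G) (Pool.Agent.N893.PG.poly_growth G) R hR C₀ hRC W hW a₀ 1
      (Or.inl rfl)
    refine ⟨c, hc, X₀, fun X hX z => ?_⟩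
    obtain ⟨a, h1, h2, h3, h4⟩ := h X hX z
    exact ⟨a, h1, h2, ((Int.modEq_iff_dvd).2 h3).symm, fun t ht hp =>
      h4 t ht (Int.prime_iff_natAbs_prime.2 hp)⟩
  · obtain ⟨c, hc, X₀, h⟩ := Pool.Agent.N893.PG.main (fun t => G.eval t)
      (fun s t => Polynomial.sub_dvd_eval_sub t s G) (Pool.Agent.N893.PG.poly_growth G) R hR C₀ hRC W hW a₀ 2
      (Or.inr ⟨rfl, hm⟩)
    refine ⟨c, hc, X₀, fun X hX z => ?_⟩
    obtain ⟨a, h1, h2, h3, h4⟩ := h X hX z
    exact ⟨a, h1, h2, ((Int.modEq_iff_dvd).2 h3).symm, fun t ht hp =>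
      h4 t ht (Int.prime_iff_natAbs_prime.2 hp)⟩
  · obtain ⟨G, X₀, h⟩ := Pool.Agent.N893.PG.bun A
    refine ⟨G, X₀, fun X hX z => ?_⟩
    obtain ⟨a, h1, h2, h3, h4, h5, h6⟩ := h X hX z
    exact ⟨a, h1, h2, h3, h4, h5, fun t ht hp => h6 t ht (Int.prime_iff_natAbs_prime.2 hp)⟩

end Pool.Agent.Results.MP_711652_nt.PolynomialTranslates
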