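import Pool.Agent.N542.PQ.Joint

set_option autoImplicit false

/-!
# Record prime gaps around several smooth functions of one prime number, at the same time

Let `f₁, …, f_r` be smoothly varying functions (Bingham, Goldie, Teugels) whose indices `c_j` are
arbitrary real numbers except `0, 1, 2, …`: for instance `t ^ (c_j)`, or `t ^ (c_j)` plus a combination
of lower real powers (`smoothlyVarying_genPoly` below), or `t ^ (c_j)` times powers of iterated
logarithms. Let `u_j` be real numbers such that the `c_j + u_j` are positive and distinct, `b` prime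
to `d`, `D` a natural number and `0 < ε ≤ 1 / 2`. There are `κ, δ > 0` such that for all large `Z`, for
ALL real `α_j` with `Z ^ (u_j - δ) ≤ |α_j| ≤ Z ^ (u_j + δ)` and ALL real polynomials `P_j` of degree
at most `D` with `α_j f_j(n) + P_j(n) ≥ Z ^ ε` on `(Z, (1 + ε) Z]`, at least `Z ^ (1 - ε)` primes
`p ≡ b (mod d)` of `(Z, (1 + ε) Z]` are such that no prime lies within
`κ log Z (log₂ Z)² log₄ Z / (log₃ Z)²` of any of the numbers `α_j f_j(p) + P_j(p)`.

So there are record gaps around `p² + √p`, around `p ^ c (log p) ^ a + m p`, and so on.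

The starting result `MP_45ff98_nt.SeveralPowersOfPrimes` (helper961) treats fixed generalised
polynomials with non-integral leading exponents (there `c_j > 0`, `u_j = 0`, `P_j = 0`, one prime).

Proof (`Pool.Agent.N542.PQ`): Vaughan's identity; all the phases `G(t) = ∑ θ_j f_j(t) + P(t)`, `P` any
polynomial of degree `≤ D`, are differenced one and the same number `Q > D` of times, so that `P`
disappears and the term with the largest `c_j + u_j` dominates; in the sums of type II the derivatives
of `t ↦ G(l t) - G(l' t)` are found by the mean value theorem for `t ^ k G⁽ᵏ⁾(t)`, and the `l'` close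
to `l` are estimated trivially. Then the joint covering criterion `crit_scaledJ` (helper961), applied
to the family of all primes of the class which are not good.
-/

namespace Pool.Agent.Results.MP_711652_nt.SeveralSmoothFunctions

open Finset Filter Topology

/-- the record function `log x (log₂ x)² log₄ x / (log₃ x)²` -/
noncomputable def R (x : ℝ) : ℝ :=
  Real.log x * (Real.log (Real.log x)) ^ 2 * Real.log (Real.log (Real.log (Real.log x))) /
    (Real.log (Real.log (Real.log x))) ^ 2

/-- `f` is smoothly varying with index `c`: it is positive and has derivatives of every order near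
infinity, and `t ^ j f⁽ʲ⁾(t) / f(t)` tends to `c (c - 1) ⋯ (c - j + 1)` for every `j`. -/
def SmoothlyVarying (c : ℝ) (f : ℝ → ℝ) : Prop :=
  (∀ᶠ t in atTop, 0 < f t) ∧
  (∀ j : ℕ, ∀ᶠ t in atTop, DifferentiableAt ℝ (iteratedDeriv j f) t) ∧
  ∀ j : ℕ, Tendsto (fun t => t ^ j * iteratedDeriv j f t / f t) atTop
    (𝓝 (∏ i ∈ range j, (c - i)))

/-- The main theorem. -/
theorem result (r : ℕ) (hr : 1 ≤ r) (c u : Fin r → ℝ) (f : Fin r → ℝ → ℝ)
    (hcn : ∀ j, ∀ n : ℕ, c j ≠ n) (hf : ∀ j, SmoothlyVarying (c j) (f j))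
    (hv : ∀ j, 0 < c j + u j) (hinj : Function.Injective (fun j => c j + u j))
    (D d b : ℕ) (hd : 0 < d) (hb : b.Coprime d) (ε : ℝ) (hε : 0 < ε) (hε1 : ε ≤ 1 / 2) :
    ∃ κ δ : ℝ, 0 < κ ∧ 0 < δ ∧ ∀ᶠ Z : ℝ in atTop, ∀ (α : Fin r → ℝ) (P : Fin r → Polynomial ℝ),
      (∀ j, Z ^ (u j - δ) ≤ |α j| ∧ |α j| ≤ Z ^ (u j + δ)) → (∀ j, (P j).natDegree ≤ D) →
      (∀ j, ∀ n : ℕ, Z < n → (n : ℝ) ≤ (1 + ε) * Z → Z ^ ε ≤ α j * f j n + (P j).eval (n : ℝ)) →
      ∃ G : Finset ℕ, Z ^ (1 - ε) ≤ (G.card : ℝ) ∧ ∀ p ∈ G, p.Prime ∧ p ≡ b [MOD d] ∧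
        Z < p ∧ (p : ℝ) ≤ (1 + ε) * Z ∧
        ∀ j, ∀ q : ℕ, q.Prime → κ * R Z < |(q : ℝ) - (α j * f j p + (P j).eval (p : ℝ))| := by
  have hSV : ∀ j, Pool.Agent.N542.PP.SV (c j) (fun k => iteratedDeriv k (f j)) := by
    intro j
    refine ⟨?_, ?_, ?_⟩
    · simpa only [iteratedDeriv_zero] using (hf j).1
    · intro k
      filter_upwards [(hf j).2.1 k] with t ht
      rw [iteratedDeriv_succ]
      exact ht.hasDerivAt
    · intro k
      have h1 := (hf j).2.2 k
      rw [Pool.Agent.N542.PP.fall]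
      simpa only [iteratedDeriv_zero] using h1
  have h := Pool.Agent.N542.PQ.joint hr c u (fun j k => iteratedDeriv k (f j)) hSV hcn hv hinj D d b
    hd hb ε hε hε1
  simp only [iteratedDeriv_zero] at h
  exact h

/-- derivatives of a family -/
lemma iteratedDeriv_family (f : ℝ → ℝ) (F : ℕ → ℝ → ℝ) (h0 : ∀ t, 0 < t → f t = F 0 t)
    (hF : ∀ j, ∀ t, 0 < t → HasDerivAt (F j) (F (j + 1) t) t) :
    ∀ j, ∀ t, 0 < t → iteratedDeriv j f t = F j t := by
  intro j
  induction j with
  | zero =>
    intro t ht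
    rw [iteratedDeriv_zero]
    exact h0 t ht
  | succ j ih =>
    intro t ht
    rw [iteratedDeriv_succ]
    have h1 : iteratedDeriv j f =ᶠ[𝓝 t] F j := by
      filter_upwards [eventually_gt_nhds ht] with y hy
      exact ih y hy
    rw [h1.deriv_eq]
    exact (hF j t ht).deriv

lemma hasDerivAt_power (b : ℝ) (j : ℕ) (t : ℝ) (ht : 0 < t) :
    HasDerivAt (fun t : ℝ => (∏ i ∈ range j, (b - i)) * t ^ (b - j))
      ((∏ i ∈ range (j + 1), (b - i)) * t ^ (b - (j + 1 : ℕ))) t := by
  have h := (Real.hasDerivAt_rpow_const (x := t) (p := b - j) (Or.inl ht.ne')).const_mul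
    (∏ i ∈ range j, (b - i))
  refine h.congr_deriv ?_
  rw [prod_range_succ]
  push_cast
  rw [show b - (j : ℝ) - 1 = b - (j + 1) by ring]
  ring

/-- `t ^ c` plus a combination of lower real powers is smoothly varying with index `c`. -/
theorem smoothlyVarying_genPoly (c : ℝ) (n : ℕ) (a b : Fin n → ℝ) (hb : ∀ i, b i < c) :
    SmoothlyVarying c (fun t => t ^ c + ∑ i, a i * t ^ b i) := by
  set f : ℝ → ℝ := fun t => t ^ c + ∑ i, a i * t ^ b i with hf
  set F : ℕ → ℝ → ℝ := fun j t => (∏ i ∈ range j, (c - i)) * t ^ (c - j) +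
    ∑ i, a i * ((∏ k ∈ range j, (b i - k)) * t ^ (b i - j)) with hFdef
  have h0 : ∀ t, 0 < t → f t = F 0 t := by
    intro t _
    simp [hf, hFdef]
  have hF : ∀ j, ∀ t, 0 < t → HasDerivAt (F j) (F (j + 1) t) t := by
    intro j t ht
    refine (hasDerivAt_power c j t ht).add ?_
    have h1 : ∀ i ∈ (univ : Finset (Fin n)), HasDerivAt
        (fun t : ℝ => a i * ((∏ k ∈ range j, (b i - k)) * t ^ (b i - j)))
        (a i * ((∏ k ∈ range (j + 1), (b i - k)) * t ^ (b i - (j + 1 : ℕ)))) t :=
      fun i _ => (hasDerivAt_power (b i) j t ht).const_mul (a i)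
    exact HasDerivAt.fun_sum h1
  have hit := iteratedDeriv_family f F h0 hF
  -- the quotients `t ^ j F j t / t ^ c`
  have hlim : ∀ j : ℕ, Tendsto (fun t => t ^ j * F j t / t ^ c) atTop
      (𝓝 (∏ i ∈ range j, (c - i))) := by
    intro j
    have h1 : Tendsto (fun t : ℝ => (∏ i ∈ range j, (c - (i : ℝ))) +
        ∑ i, a i * ((∏ k ∈ range j, (b i - k)) * t ^ (-(c - b i)))) atTop
        (𝓝 ((∏ i ∈ range j, (c - (i : ℝ))) + ∑ i : Fin n, a i * ((∏ k ∈ range j, (b i - k)) * 0))) := by
      apply tendsto_const_nhds.add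
      apply tendsto_finsetSum
      intro i _
      apply Tendsto.const_mul
      apply Tendsto.const_mul
      exact tendsto_rpow_neg_atTop (by linarith [hb i])
    simp only [mul_zero, sum_const_zero, add_zero] at h1
    refine h1.congr' ?_
    filter_upwards [eventually_gt_atTop 0] with t ht
    have hp : ∀ b : ℝ, t ^ j * t ^ (b - j) / t ^ c = t ^ (-(c - b)) := by
      intro b
      rw [← Real.rpow_natCast, ← Real.rpow_add ht, ← Real.rpow_sub ht]
      congr 1
      ring
    have h2 : t ^ j * F j t / t ^ c = (∏ i ∈ range j, (c - (i : ℝ))) * (t ^ j * t ^ (c - j) / t ^ c) +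
        ∑ i, a i * ((∏ k ∈ range j, (b i - k)) * (t ^ j * t ^ (b i - j) / t ^ c)) := by
      simp only [hFdef]
      rw [mul_add, add_div, mul_sum, sum_div]
      congr 1
      · ring
      · refine sum_congr rfl fun i _ => ?_
        ring
    rw [h2, hp c, sub_self, neg_zero, Real.rpow_zero, mul_one]
    congr 1
    refine sum_congr rfl fun i _ => ?_
    rw [hp (b i)]
  have hl0 := hlim 0
  simp only [pow_zero, one_mul, range_zero, prod_empty] at hl0
  have hpos : ∀ᶠ t in atTop, 0 < f t := by
    filter_upwards [hl0.eventually_const_lt (show (0 : ℝ) < 1 by norm_num),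
      eventually_gt_atTop 0] with t h1 ht
    rw [h0 t ht]
    have h2 : 0 < t ^ c := by positivity
    exact (div_pos_iff_of_pos_right h2).mp h1
  refine ⟨hpos, ?_, ?_⟩
  · intro j
    filter_upwards [eventually_gt_atTop 0] with t ht
    have h1 : iteratedDeriv j f =ᶠ[𝓝 t] F j := by
      filter_upwards [eventually_gt_nhds ht] with y hy
      exact hit j y hy
    exact ((hF j t ht).congr_of_eventuallyEq h1).differentiableAt
  · intro j
    have h1 := (hlim j).div hl0 one_ne_zero
    rw [div_one] at h1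
    refine h1.congr' ?_
    filter_upwards [eventually_gt_atTop 0, hpos] with t ht hft
    have h2 : 0 < t ^ c := by positivity
    rw [hit j t ht, Pi.div_apply, ← h0 t ht]
    field_simp

end Pool.Agent.Results.MP_711652_nt.SeveralSmoothFunctions
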